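import Pool.Agent.W96.CL.Stm
set_option autoImplicit false

/-!
# The clopen argument in `θ`
-/

open Polynomial Filter Topology

namespace W96CL
namespace CLOPENaux

theorem aeval_sum {d : ℕ} (p : ℝ[X]) (y : ℂ) (hp : p.natDegree ≤ d) :
    aeval y p = ∑ k ∈ Finset.range (d + 1), (p.coeff k : ℂ) * y ^ k := by
  rw [Polynomial.aeval_eq_sum_range' (n := d + 1) (by omega)]
  refine Finset.sum_congr rfl fun k _ => ?_
  rw [Algebra.smul_def]; rfl

/-- convergence of values -/
theorem evT {d : ℕ} {P : ℕ → ℝ[X]} {P0 : ℝ[X]} (hd : ∀ m, (P m).natDegree ≤ d)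
    (hd0 : P0.natDegree ≤ d) (hc : ∀ k, Tendsto (fun m => (P m).coeff k) atTop (𝓝 (P0.coeff k)))
    {x : ℕ → ℂ} {x0 : ℂ} (hx : Tendsto x atTop (𝓝 x0)) :
    Tendsto (fun m => aeval (x m) (P m)) atTop (𝓝 (aeval x0 P0)) := by
  rw [aeval_sum P0 x0 hd0]
  have e : (fun m => aeval (x m) (P m)) =
      fun m => ∑ k ∈ Finset.range (d + 1), ((P m).coeff k : ℂ) * (x m) ^ k := by
    funext m
    exact aeval_sum (P m) (x m) (hd m)
  rw [e]
  refine tendsto_finsetSum _ fun k _ => ?_
  exact ((Complex.continuous_ofReal.tendsto _).comp (hc k)).mul (hx.pow k)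

theorem root_bd {N : ℕ} {p : ℝ[X]} {C : ℝ} (hm : p.Monic) (hd : p.natDegree = N)
    (hC : ∀ k < N, |p.coeff k| ≤ C) {x : ℂ} (hx : aeval x p = 0) : ‖x‖ ≤ max 1 (N * C) := by
  by_contra hcon
  push Not at hcon
  have h1 : 1 < ‖x‖ := lt_of_le_of_lt (le_max_left _ _) hcon
  have h2 : N * C < ‖x‖ := lt_of_le_of_lt (le_max_right _ _) hcon
  rw [aeval_sum p x hd.le, Finset.sum_range_succ] at hx
  have h3 : p.coeff N = 1 := by rw [← hd]; exact hm
  rw [h3] at hx
  have h4 : x ^ N = -∑ k ∈ Finset.range N, (p.coeff k : ℂ) * x ^ k := by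
    push_cast at hx
    linear_combination hx
  rcases Nat.eq_zero_or_pos N with h0 | h0
  · subst h0
    simp at h4
  · have h5 : ‖x‖ ^ N ≤ ∑ _k ∈ Finset.range N, C * ‖x‖ ^ (N - 1) := by
      rw [← norm_pow, h4, norm_neg]
      refine (norm_sum_le _ _).trans (Finset.sum_le_sum fun k hk => ?_)
      have hk := Finset.mem_range.1 hk
      rw [norm_mul, norm_pow, Complex.norm_real, Real.norm_eq_abs]
      have hC0 : 0 ≤ C := (abs_nonneg _).trans (hC k hk)
      exact mul_le_mul (hC k hk) (pow_le_pow_right₀ h1.le (by omega)) (by positivity) hC0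
    rw [Finset.sum_const, Finset.card_range, nsmul_eq_mul] at h5
    have h6 : ‖x‖ ^ N = ‖x‖ * ‖x‖ ^ (N - 1) := by
      rw [← pow_succ']; congr 1; omega
    rw [h6, ← mul_assoc] at h5
    have h7 : 0 < ‖x‖ ^ (N - 1) := by positivity
    exact absurd (le_of_mul_le_mul_right h5 h7) (not_le.2 h2)

theorem phi_aeval (n : ℕ) (θ : ℝ) (x : ℂ) :
    aeval x (phi n θ) = (1 + 2 * (Real.cos θ : ℂ) * x + x ^ 2) ^ (2 * n) := by
  unfold phi
  simp

theorem phi_tendsto (n : ℕ) {θ : ℕ → ℝ} {θ0 : ℝ} (h : Tendsto θ atTop (𝓝 θ0)) (x : ℂ) :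
    Tendsto (fun m => aeval x (phi n (θ m))) atTop (𝓝 (aeval x (phi n θ0))) := by
  rw [phi_aeval]
  have e : (fun m => aeval x (phi n (θ m))) =
      fun m => (1 + 2 * (Real.cos (θ m) : ℂ) * x + x ^ 2) ^ (2 * n) := by
    funext m
    exact phi_aeval n (θ m) x
  rw [e]
  have h1 : Tendsto (fun m => (Real.cos (θ m) : ℂ)) atTop (𝓝 (Real.cos θ0 : ℂ)) :=
    (Complex.continuous_ofReal.tendsto _).comp ((Real.continuous_cos.tendsto _).comp h)
  exact (((tendsto_const_nhds.add ((tendsto_const_nhds.mul h1).mul_const x)).add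
    tendsto_const_nhds).pow (2 * n))

theorem phi_monic (n : ℕ) (θ : ℝ) : (phi n θ).Monic := by
  unfold phi
  apply Monic.pow
  have : (1 + C (2 * Real.cos θ) * X + X ^ 2 : ℝ[X]) = X ^ 2 + (C (2 * Real.cos θ) * X + 1) := by
    ring
  rw [this]
  apply monic_X_pow_add
  refine lt_of_le_of_lt (degree_add_le _ _) ?_
  rw [max_lt_iff]
  constructor
  · refine lt_of_le_of_lt (degree_C_mul_X_le _) ?_
    norm_num
  · refine lt_of_le_of_lt degree_one_le ?_
    norm_num

/-- uniqueness of `V` -/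
theorem uniqV {n : ℕ} {θ : ℝ} {A B : ℝ[X]}
    (h : ∀ x : ℂ, aeval x (phi n θ) * aeval x A = aeval x (phi n θ) * aeval x B) : A = B := by
  have h1 : phi n θ * A = phi n θ * B := by
    apply Polynomial.funext
    intro r
    have h2 := h (r : ℂ)
    have e : ∀ p : ℝ[X], aeval (r : ℂ) p = ((p.eval r : ℝ) : ℂ) := by
      intro p
      have := Polynomial.aeval_algebraMap_apply ℂ r p
      simpa using this
    rw [e, e, e] at h2
    rw [eval_mul, eval_mul]
    exact_mod_cast h2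
  exact mul_left_cancel₀ (phi_monic n θ).ne_zero h1

theorem om_facts : om.im ≠ 0 ∧ om ≠ 0 := by
  have h : om.im ≠ 0 := by
    unfold om
    simp
  exact ⟨h, fun h0 => h (by rw [h0]; rfl)⟩

/-- three zeros on a triangle are impossible for polynomials with zeros `-1` and positive reals -/
theorem no_triple {Q : ℝ[X]} (hQ : ∀ z : ℂ, aeval z Q = 0 → z.im = 0 ∧ z ≠ 0) (x : ℂ)
    (h0 : aeval x Q = 0) (h1 : aeval (om * x) Q = 0) : False := by
  have a0 := hQ x h0
  have a1 := hQ (om * x) h1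
  have hre : x.re ≠ 0 := by
    intro h
    exact a0.2 (Complex.ext h a0.1)
  have h2 := a1.1
  rw [Complex.mul_im, a0.1, mul_zero, zero_add] at h2
  rcases mul_eq_zero.1 h2 with h3 | h3
  · exact om_facts.1 h3
  · exact hre h3

theorem natDeg {n : ℕ} {θ : ℝ} {t : ℝ[X]} (h : Rel n θ t) :
    t.natDegree = 4 * n ∧ t.leadingCoeff = -2 := by
  have h1 : t.coeff (4 * n) = -2 := by
    have := h.pal 0 (Nat.zero_le _)
    rw [Nat.sub_zero] at this
    rw [← this]; exact h.zero
  have h2 : t.natDegree = 4 * n := by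
    apply le_antisymm h.deg
    apply le_natDegree_of_ne_zero
    rw [h1]; norm_num
  refine ⟨h2, ?_⟩
  rw [leadingCoeff, h2, h1]

end CLOPENaux

open CLOPENaux in
theorem cl_clopen (hb : S_base) (hf : S_fact) (hr : S_ray) (hsq : S_sqrtcont) (hv : S_vcont)
    (hcc : S_cntcont) (ht : S_turn) (_hcs : S_cons) : S_clopen := by
  intro n t lam hn F
  set Θ : Set ℝ := Set.Ioc 0 (Real.pi / 3) with hΘ
  have hpi : (0 : ℝ) < Real.pi / 3 := by positivity
  have hrel : ∀ θ ∈ Θ, Rel n θ (t θ) := fun θ hθ => F.rel θ hθ.1 hθ.2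
  obtain ⟨W, hW1, hW2, hW3⟩ := hv n Θ t hn hrel F.cont
  obtain ⟨Q, hQ1, hQ2, hQ3⟩ := hsq (2 * n) Θ W
    (fun θ hθ => ⟨(hW1 θ hθ).1, by rw [(hW1 θ hθ).2]; ring⟩) hW2
  -- `V = 3 Q²` identifies `W`
  have hWQ : ∀ θ ∈ Θ, ∀ P : ℝ[X], P1s n θ (t θ) P → W θ = P ^ 2 ∧ Q θ = P := by
    intro θ hθ P hP
    have h1 : W θ = P ^ 2 := by
      apply uniqV (n := n) (θ := θ)
      intro x
      have e1 := hW3 θ hθ x
      have e2 := hP.VQ x
      rw [map_pow]
      have e3 : (3 : ℂ) ≠ 0 := by norm_num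
      apply mul_left_cancel₀ e3
      linear_combination e2 - e1
    exact ⟨h1, hQ3 θ hθ P hP.monic h1⟩
  set G : Set Θ := {θ | P1 n θ.1 (t θ.1) (Q θ.1) ∧ cnt (t θ.1) = 2} with hG
  -- convergence of coefficients
  have hct : ∀ (u : ℕ → Θ) (u0 : Θ), Tendsto u atTop (𝓝 u0) → ∀ k,
      Tendsto (fun m => (t (u m).1).coeff k) atTop (𝓝 ((t u0.1).coeff k)) := by
    intro u u0 hu k
    have := continuousOn_iff_continuous_domRestrict.1 (F.cont k)
    exact (this.tendsto u0).comp hu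
  have hcQ : ∀ (u : ℕ → Θ) (u0 : Θ), Tendsto u atTop (𝓝 u0) → ∀ k,
      Tendsto (fun m => (Q (u m).1).coeff k) atTop (𝓝 ((Q u0.1).coeff k)) := by
    intro u u0 hu k
    have := continuousOn_iff_continuous_domRestrict.1 (hQ2 k)
    exact (this.tendsto u0).comp hu
  have hcW : ∀ (u : ℕ → Θ) (u0 : Θ), Tendsto u atTop (𝓝 u0) → ∀ k,
      Tendsto (fun m => (W (u m).1).coeff k) atTop (𝓝 ((W u0.1).coeff k)) := by
    intro u u0 hu k
    have := continuousOn_iff_continuous_domRestrict.1 (hW2 k)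
    exact (this.tendsto u0).comp hu
  have hcnt : ∀ (u : ℕ → Θ) (u0 : Θ), Tendsto u atTop (𝓝 u0) → P1s n u0.1 (t u0.1) (Q u0.1) →
      ∀ᶠ m in atTop, cnt (t (u m).1) = cnt (t u0.1) := by
    intro u u0 hu hP
    apply hcc (4 * n) (fun m => t (u m).1) (t u0.1) (-2) (by norm_num)
      (fun m => natDeg (hrel _ (u m).2)) (natDeg (hrel _ u0.2)).1 (natDeg (hrel _ u0.2)).2
      (hct u u0 hu)
    · rw [(hrel _ u0.2).zero]; norm_num
    · exact hr n u0.1 (t u0.1) (Q u0.1) hn u0.2.1 u0.2.2 hP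
  -- base point
  have hbase : (⟨Real.pi / 3, hpi, le_rfl⟩ : Θ) ∈ G ∧
      Q (Real.pi / 3) = (X + 1) * (X - 1) ^ (2 * n - 1) := by
    obtain ⟨b1, b2, b3⟩ := hb n hn
    have h1 : P1 n (Real.pi / 3) (t (Real.pi / 3)) ((X + 1) * (X - 1) ^ (2 * n - 1)) := by
      rw [F.base]; exact b2
    have h2 := hWQ (Real.pi / 3) ⟨hpi, le_rfl⟩ _ h1.toP1s
    refine ⟨⟨?_, ?_⟩, h2.2⟩
    · show P1 n (Real.pi / 3) (t (Real.pi / 3)) (Q (Real.pi / 3))
      rw [h2.2]; exact h1
    · show cnt (t (Real.pi / 3)) = 2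
      rw [F.base]; exact b3
  -- closed
  have hclosed : IsClosed G := by
    apply IsSeqClosed.isClosed
    intro u u0 hu hlim
    have hval : Tendsto (fun m => (u m).1) atTop (𝓝 u0.1) :=
      (continuous_subtype_val.tendsto _).comp hlim
    have hphi := fun x : ℂ => phi_tendsto n hval x
    have htv := fun x : ℂ => evT (d := 4 * n) (P := fun m => t (u m).1) (P0 := t u0.1)
      (fun m => (hrel _ (u m).2).deg) (hrel _ u0.2).deg (hct u u0 hlim)
      (tendsto_const_nhds (x := x))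
    have hQv := fun x : ℂ => evT (d := 2 * n) (P := fun m => Q (u m).1) (P0 := Q u0.1)
      (fun m => (hQ1 _ (u m).2).2.le) (hQ1 _ u0.2).2.le (hcQ u u0 hlim)
      (tendsto_const_nhds (x := x))
    have hz : (Q u0.1).coeff 0 = -1 := by
      refine tendsto_nhds_unique (hcQ u u0 hlim 0) ?_
      have e : (fun m => (Q (u m).1).coeff 0) = fun _ => (-1 : ℝ) := by
        funext m
        exact (hu m).1.zero
      rw [e]; exact tendsto_const_nhds
    have hP1s : P1s n u0.1 (t u0.1) (Q u0.1) := by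
      refine ⟨(hQ1 _ u0.2).1, (hQ1 _ u0.2).2, by rw [hz]; norm_num, fun x => ?_, fun x => ?_⟩
      · refine tendsto_nhds_unique ((hphi x).sub (htv x)) ?_
        have e : (fun m => aeval x (phi n (u m).1) - aeval x (t (u m).1)) =
            fun m => 3 * aeval (om * x) (Q (u m).1) * aeval (om ^ 2 * x) (Q (u m).1) := by
          funext m
          exact (hu m).1.kQ x
        rw [e]
        exact (tendsto_const_nhds.mul (hQv (om * x))).mul (hQv (om ^ 2 * x))
      · refine tendsto_nhds_unique ((htv (om * x)).mul (htv (om ^ 2 * x))) ?_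
        have e : (fun m => aeval (om * x) (t (u m).1) * aeval (om ^ 2 * x) (t (u m).1)) =
            fun m => aeval (om * x) (phi n (u m).1) * aeval (om ^ 2 * x) (phi n (u m).1) +
              3 * aeval x (phi n (u m).1) * aeval x (Q (u m).1) ^ 2 := by
          funext m
          exact (hu m).1.VQ x
        rw [e]
        exact ((hphi (om * x)).mul (hphi (om ^ 2 * x))).add
          ((tendsto_const_nhds.mul (hphi x)).mul ((hQv x).pow 2))
    refine ⟨⟨hP1s, hz⟩, ?_⟩
    obtain ⟨m, hm⟩ := (hcnt u u0 hlim hP1s).exists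
    rw [← hm]
    exact (hu m).2
  -- open
  have hev : ∀ (u : ℕ → Θ) (u0 : Θ), Tendsto u atTop (𝓝 u0) → u0 ∈ G → ∃ m, u m ∈ G := by
    intro u u0 hlim hu0
    by_contra hcon
    push Not at hcon
    -- zeros of `Q u0`
    have hroots : ∀ z : ℂ, aeval z (Q u0.1) = 0 → z.im = 0 ∧ z ≠ 0 := by
      intro z hz
      have hpm : z = -1 ∨ (∃ a : ℝ, 0 < a ∧ z = a) := by
        rcases lt_or_eq_of_le u0.2.2 with hlt | heq
        · obtain ⟨z0, hZ⟩ := ht n u0.1 (t u0.1) (Q u0.1) hn u0.2.1 hlt (hrel _ u0.2) hu0.1 hu0.2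
          obtain ⟨Q1, hq1, _, hq3⟩ := hZ.Qfac
          rw [hq1, map_mul] at hz
          rcases mul_eq_zero.1 hz with h | h
          · left
            rw [map_add, aeval_X, map_one] at h
            exact eq_neg_of_add_eq_zero_left h
          · obtain ⟨a, ha, _, _, hza⟩ := hq3 z h
            exact Or.inr ⟨a, ha, hza⟩
        · have h1 : Q u0.1 = (X + 1) * (X - 1) ^ (2 * n - 1) := by
            rw [heq]; exact hbase.2
          rw [h1, map_mul, map_pow, map_add, map_sub, aeval_X, map_one] at hz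
          rcases mul_eq_zero.1 hz with h | h
          · left; exact eq_neg_of_add_eq_zero_left h
          · right
            refine ⟨1, one_pos, ?_⟩
            have := pow_eq_zero_iff (by omega) |>.1 h
            rw [sub_eq_zero] at this
            rw [this]; simp
      rcases hpm with h | ⟨a, ha, h⟩
      · rw [h]; simp
      · rw [h]
        refine ⟨Complex.ofReal_im a, ?_⟩
        exact_mod_cast ha.ne'
    have hW0 : W u0.1 = Q u0.1 ^ 2 := (hWQ _ u0.2 _ hu0.1.toP1s).1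
    -- (i)
    have hno : ∀ᶠ m in atTop, ¬ ∃ x : ℂ, aeval x (W (u m).1) = 0 ∧ aeval (om * x) (W (u m).1) = 0
        ∧ aeval (om ^ 2 * x) (W (u m).1) = 0 := by
      by_contra hfr
      rw [← Filter.Frequently] at hfr
      obtain ⟨ψ, hψ, hx⟩ := Filter.extraction_of_frequently_atTop hfr
      choose x hx1 hx2 _ using hx
      -- bounded coefficients
      have hlimψ : Tendsto (fun m => u (ψ m)) atTop (𝓝 u0) := hlim.comp hψ.tendsto_atTop
      have hbdd : ∃ C : ℝ, ∀ k < 4 * n, ∀ m, |(W (u (ψ m)).1).coeff k| ≤ C := by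
        have h1 : ∀ k, ∃ C : ℝ, ∀ m, |(W (u (ψ m)).1).coeff k| ≤ C := by
          intro k
          have h2 := (hcW _ u0 hlimψ k).abs.bddAbove_range
          obtain ⟨C, hC⟩ := h2
          exact ⟨C, fun m => hC ⟨m, rfl⟩⟩
        choose C hC using h1
        refine ⟨∑ k ∈ Finset.range (4 * n), |C k|, fun k hk m => ?_⟩
        refine (hC k m).trans ((le_abs_self _).trans ?_)
        exact Finset.single_le_sum (f := fun k => |C k|) (fun i _ => abs_nonneg _)
          (Finset.mem_range.2 hk)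
      obtain ⟨C, hC⟩ := hbdd
      have hxb : ∀ m, x m ∈ Metric.closedBall (0 : ℂ) (max 1 ((4 * n : ℕ) * C)) := by
        intro m
        rw [mem_closedBall_zero_iff]
        exact root_bd (hW1 _ (u (ψ m)).2).1 (hW1 _ (u (ψ m)).2).2 (fun k hk => hC k hk m) (hx1 m)
      obtain ⟨x0, _, χ, hχ, hxlim⟩ := (isCompact_closedBall (0 : ℂ) _).tendsto_subseq hxb
      have hlimχ : Tendsto (fun m => u (ψ (χ m))) atTop (𝓝 u0) := hlimψ.comp hχ.tendsto_atTop
      have hWv := fun (y : ℕ → ℂ) (y0 : ℂ) (hy : Tendsto y atTop (𝓝 y0)) =>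
        evT (d := 4 * n) (P := fun m => W (u (ψ (χ m))).1) (P0 := W u0.1)
        (fun m => (hW1 _ (u (ψ (χ m))).2).2.le) (hW1 _ u0.2).2.le (hcW _ u0 hlimχ) hy
      have z1 : aeval x0 (W u0.1) = 0 := by
        refine tendsto_nhds_unique (hWv _ _ hxlim) ?_
        have e : (fun m => aeval ((x ∘ χ) m) (W (u (ψ (χ m))).1)) = fun _ => (0 : ℂ) := by
          funext m
          exact hx1 (χ m)
        rw [e]; exact tendsto_const_nhds
      have z2 : aeval (om * x0) (W u0.1) = 0 := by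
        refine tendsto_nhds_unique (hWv _ _ (tendsto_const_nhds.mul hxlim)) ?_
        have e : (fun m => aeval (om * (x ∘ χ) m) (W (u (ψ (χ m))).1)) = fun _ => (0 : ℂ) := by
          funext m
          exact hx2 (χ m)
        rw [e]; exact tendsto_const_nhds
      rw [hW0, map_pow] at z1 z2
      exact no_triple hroots x0 (pow_eq_zero_iff two_ne_zero |>.1 z1)
        (pow_eq_zero_iff two_ne_zero |>.1 z2)
    have hneg : ∀ᶠ m in atTop, (Q (u m).1).coeff 0 < 0 := by
      refine (hcQ u u0 hlim 0).eventually_lt_const ?_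
      rw [hu0.1.zero]; norm_num
    obtain ⟨m, ⟨hm1, hm2⟩, hm3⟩ := ((hno.and hneg).and
      (hcnt u u0 hlim hu0.1.toP1s)).exists
    refine hcon m ?_
    obtain ⟨Q', hQ', hV'⟩ := hf n (u m).1 (t (u m).1) (C 3 * W (u m).1) hn (u m).2.1 (u m).2.2
      (hrel _ (u m).2) (by
        intro x
        rw [map_mul, aeval_C]
        have := hW3 _ (u m).2 x
        simpa using this) (by
        intro x hx
        apply hm1
        refine ⟨x, ?_⟩
        simpa using hx)
    have hQQ := (hWQ _ (u m).2 _ hQ').2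
    refine ⟨⟨by rw [hQQ]; exact hQ', ?_⟩, by rw [hm3]; exact hu0.2⟩
    have h1 : (Q (u m).1).coeff 0 ^ 2 = 1 := by rw [hQQ]; exact hQ'.sq
    rw [sq] at h1
    rcases mul_self_eq_one_iff.1 h1 with h | h
    · linarith
    · exact h
  have hopen : IsOpen G := by
    rw [← isClosed_compl_iff]
    apply IsSeqClosed.isClosed
    intro u u0 hu hlim hu0
    obtain ⟨m, hm⟩ := hev u u0 hlim hu0
    exact hu m hm
  have hpre : PreconnectedSpace Θ := Subtype.preconnectedSpace isPreconnected_Ioc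
  have huniv : G = Set.univ := by
    rcases isClopen_iff.1 ⟨hclosed, hopen⟩ with h | h
    · exfalso
      have := hbase.1
      rw [h] at this
      exact this
    · exact h
  refine ⟨Q, fun θ hθ => ?_, hQ2, hbase.2⟩
  have : (⟨θ, hθ⟩ : Θ) ∈ G := by rw [huniv]; trivial
  exact this

end W96CL
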